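import Pool.Agent.Helper81.AF2.Split2
import Pool.Agent.Helper29.AntiFrob.CastleFinal

set_option autoImplicit false

namespace Pool.Agent.Helper81.AF2

open Pool.Agent.Helper29.AntiFrob Pool.Agent.Helper6.AF2

/-- old arrows and composite arrows -/
def CT {J : Type} (Q Q' : J → Type) (T : J → J → Type) (j k : J) : Type := T j k ⊕ (Q' j × Q k)

instance CT.fin {J : Type} {Q Q' : J → Type} {T : J → J → Type} [∀ j, Fintype (Q j)]
    [∀ j, Fintype (Q' j)] [∀ j k, Fintype (T j k)] (j k : J) : Fintype (CT Q Q' T j k) :=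
  inferInstanceAs (Fintype (T j k ⊕ (Q' j × Q k)))

section

variable {J : Type} [Fintype J] (fr : J → Prop) (V : J → Type) [∀ a, AddCommGroup (V a)]
  [∀ a, Module ℂ (V a)] (Q Q' : J → Type) [∀ j, Fintype (Q j)] [∀ j, Fintype (Q' j)]
  (T : J → J → Type) [∀ a b, Fintype (T a b)]
  [DecidableEq J] [∀ j, DecidableEq (Q j)] [∀ j, DecidableEq (Q' j)]

omit [Fintype J] [(j : J) → Fintype (Q j)] [DecidableEq J] [(j : J) → DecidableEq (Q j)] in
lemma ext_prj {Z : Type} [AddCommGroup Z] [Module ℂ Z] {f g : Z →ₗ[ℂ] YY V Q}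
    (h : ∀ j t, prj V Q j t ∘ₗ f = prj V Q j t ∘ₗ g) : f = g := by
  apply LinearMap.ext
  intro z
  funext j t
  exact LinearMap.congr_fun (h j t) z

lemma τ_expand (θ : YY V Q' →ₗ[ℂ] YY V Q) (m : YY V Q →ₗ[ℂ] YY V Q')
    (j : {j : J // ¬ fr j}) :
    τMap fr V Q (θ ∘ₗ m) j = ∑ k, ∑ t : Q' k × Q j.1,
      (prj V Q j.1 t.2 ∘ₗ θ ∘ₗ inj V Q' k t.1) ∘ₗ (prj V Q' k t.1 ∘ₗ m ∘ₗ inj V Q j.1 t.2) := by
  change ∑ t, prj V Q j.1 t ∘ₗ (θ ∘ₗ m) ∘ₗ inj V Q j.1 t = _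
  simp only [Fintype.sum_prod_type]
  have : ∀ t : Q j.1, prj V Q j.1 t ∘ₗ (θ ∘ₗ m) ∘ₗ inj V Q j.1 t = ∑ k, ∑ t' : Q' k,
      (prj V Q j.1 t ∘ₗ θ ∘ₗ inj V Q' k t') ∘ₗ (prj V Q' k t' ∘ₗ m ∘ₗ inj V Q j.1 t) := by
    intro t
    exact comp_expand V Q' (prj V Q j.1 t ∘ₗ θ) (m ∘ₗ inj V Q j.1 t)
  simp only [this]
  rw [Finset.sum_comm]
  refine Finset.sum_congr rfl fun k _ => ?_
  rw [Finset.sum_comm]

theorem comp_iff : FrobG fr V (CT Q Q' T) ↔
    ∃ (Ξ : ∀ j k, T j k → V j →ₗ[ℂ] V k) (θ : YY V Q' →ₗ[ℂ] YY V Q) (l : NJ fr V),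
      KD (aMap fr V Ξ) (ρMap fr V Q) (ρMap fr V Q') (bbMap fr V) (cMap fr V Ξ) (τMap fr V Q)
        (τMap fr V Q') θ l := by
  rw [frobG_base]
  constructor
  · rintro ⟨Ξ', l, hk⟩
    let θ : YY V Q' →ₗ[ℂ] YY V Q := ofCoord V Q' (fun j t' =>
      LinearMap.pi fun k => LinearMap.pi fun t => Ξ' j k (Sum.inr (t', t)))
    have hθ : ∀ j k (t' : Q' j) (t : Q k), prj V Q k t ∘ₗ θ ∘ₗ inj V Q' j t' =
        Ξ' j k (Sum.inr (t', t)) := by
      intro j k t' t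
      rw [show θ ∘ₗ inj V Q' j t' = _ from ofCoord_inj V Q' _ j t']
      rfl
    refine ⟨fun j k t => Ξ' j k (Sum.inl t), θ, l, ?_⟩
    intro s x m h1 h2 h3
    let x' : EJ V (CT Q Q' T) := fun j k t => match t with
      | Sum.inl t => x j k t
      | Sum.inr t => prj V Q' j t.1 ∘ₗ m ∘ₗ inj V Q k t.2
    have hres := hk s x'
      (by
        funext j k t
        cases t with
        | inl t => exact congrFun (congrFun (congrFun h1 j) k) t
        | inr t =>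
          change Ξ' j k (Sum.inr (t.1, t.2)) ∘ₗ s.1 j - s.1 k ∘ₗ Ξ' j k (Sum.inr (t.1, t.2)) = 0
          rw [← hθ]
          have e1 : (prj V Q k t.2 ∘ₗ θ ∘ₗ inj V Q' j t.1) ∘ₗ s.1 j =
              prj V Q k t.2 ∘ₗ (θ ∘ₗ ρMap fr V Q' s) ∘ₗ inj V Q' j t.1 := by
            rw [LinearMap.comp_assoc, LinearMap.comp_assoc, ← ρ_inj, LinearMap.comp_assoc]
          rw [e1, h2]
          exact sub_self _)
      (by
        funext j
        have h3j := congrFun h3 j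
        have e1 := τ_expand fr V Q Q' θ m j
        have e2 := τ_expand fr V Q' Q m θ j
        change bbMap fr V l s j + (∑ k, ∑ t, Ξ' k j.1 (Sum.inl t) ∘ₗ x k j.1 t -
          ∑ k, ∑ t, x j.1 k t ∘ₗ Ξ' j.1 k (Sum.inl t)) + τMap fr V Q (θ ∘ₗ m) j -
          τMap fr V Q' (m ∘ₗ θ) j = 0 at h3j
        change bbMap fr V l s j + (∑ k, ∑ t : T k j.1 ⊕ (Q' k × Q j.1), Ξ' k j.1 t ∘ₗ x' k j.1 t -
          ∑ k, ∑ t : T j.1 k ⊕ (Q' j.1 × Q k), x' j.1 k t ∘ₗ Ξ' j.1 k t) = 0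
        simp only [Fintype.sum_sum_type, Finset.sum_add_distrib]
        have e3 : ∑ k, ∑ t : Q' k × Q j.1, Ξ' k j.1 (Sum.inr t) ∘ₗ x' k j.1 (Sum.inr t) =
            τMap fr V Q (θ ∘ₗ m) j := by
          rw [e1]
          refine Finset.sum_congr rfl fun k _ => Finset.sum_congr rfl fun t _ => ?_
          rw [hθ]
        have e4 : ∑ k, ∑ t : Q' j.1 × Q k, x' j.1 k (Sum.inr t) ∘ₗ Ξ' j.1 k (Sum.inr t) =
            τMap fr V Q' (m ∘ₗ θ) j := by
          rw [e2]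
          refine Finset.sum_congr rfl fun k _ => ?_
          rw [← Equiv.sum_comp (Equiv.prodComm (Q k) (Q' j.1))]
          refine Finset.sum_congr rfl fun t _ => ?_
          have := hθ j.1 k t.2 t.1
          change _ = (prj V Q' j.1 t.2 ∘ₗ m ∘ₗ inj V Q k t.1) ∘ₗ
            (prj V Q k t.1 ∘ₗ θ ∘ₗ inj V Q' j.1 t.2)
          rw [this]
          rfl
        rw [e3, e4, ← h3j]
        change _ = bbMap fr V l s j + (∑ k, ∑ t, Ξ' k j.1 (Sum.inl t) ∘ₗ x k j.1 t -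
          ∑ k, ∑ t, x j.1 k t ∘ₗ Ξ' j.1 k (Sum.inl t)) + τMap fr V Q (θ ∘ₗ m) j -
          τMap fr V Q' (m ∘ₗ θ) j
        change bbMap fr V l s j + (∑ k, ∑ t, Ξ' k j.1 (Sum.inl t) ∘ₗ x k j.1 t +
          τMap fr V Q (θ ∘ₗ m) j - (∑ k, ∑ t, x j.1 k t ∘ₗ Ξ' j.1 k (Sum.inl t) +
          τMap fr V Q' (m ∘ₗ θ) j)) = _
        abel)
    refine ⟨hres.1, ?_, ?_⟩
    · funext j k t
      exact congrFun (congrFun (congrFun hres.2 j) k) (Sum.inl t)
    · apply ext_inj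
      intro k t
      apply ext_prj
      intro j t'
      have := congrFun (congrFun (congrFun hres.2 j) k) (Sum.inr (t', t))
      rw [LinearMap.zero_comp, LinearMap.comp_zero]
      exact this
  · rintro ⟨Ξ, θ, l, hk⟩
    let Ξ' : ∀ j k, CT Q Q' T j k → V j →ₗ[ℂ] V k := fun j k t => match t with
      | Sum.inl t => Ξ j k t
      | Sum.inr t => prj V Q k t.2 ∘ₗ θ ∘ₗ inj V Q' j t.1
    refine ⟨Ξ', l, ?_⟩
    intro s x' h1 h3
    let m : YY V Q →ₗ[ℂ] YY V Q' := ofCoord V Q (fun k t =>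
      LinearMap.pi fun j => LinearMap.pi fun t' => x' j k (Sum.inr (t', t)))
    have hm : ∀ j k (t' : Q' j) (t : Q k), prj V Q' j t' ∘ₗ m ∘ₗ inj V Q k t =
        x' j k (Sum.inr (t', t)) := by
      intro j k t' t
      rw [show m ∘ₗ inj V Q k t = _ from ofCoord_inj V Q _ k t]
      rfl
    have hres := hk s (fun j k t => x' j k (Sum.inl t)) m
      (by
        funext j k t
        exact congrFun (congrFun (congrFun h1 j) k) (Sum.inl t))
      (by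
        apply ext_inj
        intro j t'
        apply ext_prj
        intro k t
        have := congrFun (congrFun (congrFun h1 j) k) (Sum.inr (t', t))
        change (prj V Q k t ∘ₗ θ ∘ₗ inj V Q' j t') ∘ₗ s.1 j -
          s.1 k ∘ₗ (prj V Q k t ∘ₗ θ ∘ₗ inj V Q' j t') = 0 at this
        have e1 : (prj V Q k t ∘ₗ θ ∘ₗ inj V Q' j t') ∘ₗ s.1 j =
            prj V Q k t ∘ₗ (θ ∘ₗ ρMap fr V Q' s) ∘ₗ inj V Q' j t' := by
          rw [LinearMap.comp_assoc, LinearMap.comp_assoc, ← ρ_inj, LinearMap.comp_assoc]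
        rw [e1, sub_eq_zero] at this
        exact this)
      (by
        funext j
        have h3j := congrFun h3 j
        have e1 := τ_expand fr V Q Q' θ m j
        have e2 := τ_expand fr V Q' Q m θ j
        change bbMap fr V l s j + (∑ k, ∑ t : T k j.1 ⊕ (Q' k × Q j.1), Ξ' k j.1 t ∘ₗ x' k j.1 t -
          ∑ k, ∑ t : T j.1 k ⊕ (Q' j.1 × Q k), x' j.1 k t ∘ₗ Ξ' j.1 k t) = 0 at h3j
        change bbMap fr V l s j + (∑ k, ∑ t, Ξ k j.1 t ∘ₗ x' k j.1 (Sum.inl t) -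
          ∑ k, ∑ t, x' j.1 k (Sum.inl t) ∘ₗ Ξ j.1 k t) + τMap fr V Q (θ ∘ₗ m) j -
          τMap fr V Q' (m ∘ₗ θ) j = 0
        simp only [Fintype.sum_sum_type, Finset.sum_add_distrib] at h3j
        have e3 : ∑ k, ∑ t : Q' k × Q j.1, Ξ' k j.1 (Sum.inr t) ∘ₗ x' k j.1 (Sum.inr t) =
            τMap fr V Q (θ ∘ₗ m) j := by
          rw [e1]
          refine Finset.sum_congr rfl fun k _ => Finset.sum_congr rfl fun t _ => ?_
          rw [hm]
        have e4 : ∑ k, ∑ t : Q' j.1 × Q k, x' j.1 k (Sum.inr t) ∘ₗ Ξ' j.1 k (Sum.inr t) =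
            τMap fr V Q' (m ∘ₗ θ) j := by
          rw [e2]
          refine Finset.sum_congr rfl fun k _ => ?_
          rw [← Equiv.sum_comp (Equiv.prodComm (Q k) (Q' j.1))]
          refine Finset.sum_congr rfl fun t _ => ?_
          have := hm j.1 k t.2 t.1
          change _ = (prj V Q' j.1 t.2 ∘ₗ m ∘ₗ inj V Q k t.1) ∘ₗ
            (prj V Q k t.1 ∘ₗ θ ∘ₗ inj V Q' j.1 t.2)
          rw [this]
          rfl
        rw [e3, e4] at h3j
        change bbMap fr V l s j + (∑ k, ∑ t, Ξ k j.1 t ∘ₗ x' k j.1 (Sum.inl t) +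
          τMap fr V Q (θ ∘ₗ m) j - (∑ k, ∑ t, x' j.1 k (Sum.inl t) ∘ₗ Ξ j.1 k t +
          τMap fr V Q' (m ∘ₗ θ) j)) = 0 at h3j
        rw [← h3j]
        abel)
    refine ⟨hres.1, ?_⟩
    funext j k t
    cases t with
    | inl t => exact congrFun (congrFun (congrFun hres.2.1 j) k) t
    | inr t =>
      have := hm j k t.1 t.2
      rw [hres.2.2, LinearMap.zero_comp, LinearMap.comp_zero] at this
      exact this.symm

end

end Pool.Agent.Helper81.AF2
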