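import Pool.Agent.Helper81.AF2.Comp

set_option autoImplicit false

namespace Pool.Agent.Helper81.AF2

open Pool.Agent.Helper29.AntiFrob Pool.Agent.Helper6.AF2

section forms

variable {ι : Type} [Fintype ι] [DecidableEq ι]

lemma form2 (i : ι) (n n' : ι → ℕ) (m : Option ι → Option ι → ℕ)
    (hsize : ∀ a, a ≠ some i → size n' a = size n a) (hloop : m (some i) (some i) = 0) :
    HasFrobeniusFunctional (SqZero n' m) ↔
      FrobG (ofr (fun j : JJ i => j.1 = none))
        (OV (Fin (n' i) → ℂ) (fun j : JJ i => Fin (size n j.1) → ℂ))
        (OT2 (fun j : JJ i => Fin (m (some i) j.1)) (fun j : JJ i => Fin (m j.1 (some i)))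
          (fun j k : JJ i => Fin (m j.1 k.1))) := by
  rw [frobG_iff]
  refine (FrobG.transport_iff (Equiv.optionSubtypeNe (some i)) ?_ ?_ ?_).symm
  · intro a
    cases a with
    | none => simp [ofr]
    | some j => simp [ofr]
  · intro a
    cases a with
    | none =>
      change Module.finrank ℂ (Fin (n' i) → ℂ) = Module.finrank ℂ (Fin (n' i) → ℂ)
      rfl
    | some j =>
      change Module.finrank ℂ (Fin (size n j.1) → ℂ) = Module.finrank ℂ (Fin (size n' j.1) → ℂ)
      rw [hsize j.1 j.2]
  · intro a b
    cases a with
    | none =>
      cases b with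
      | none =>
        change Fintype.card Empty = Fintype.card (Fin (m (some i) (some i)))
        rw [hloop]
        rfl
      | some j => rfl
    | some j =>
      cases b with
      | none => rfl
      | some k => rfl

lemma finrank_YYi (i : ι) (n : ι → ℕ) (m : Option ι → Option ι → ℕ)
    (h : m (some i) (some i) = 0) :
    Module.finrank ℂ (YY (fun j : JJ i => Fin (size n j.1) → ℂ)
      (fun j : JJ i => Fin (m j.1 (some i)))) = ∑ b, m b (some i) * size n b :=
  finrank_YY i n (fun a b => m b a) h

/-- index set after removing a vertex -/
def rem (i : ι) : Option {j : ι // j ≠ i} ≃ JJ i where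
  toFun := fun a => ⟨a.map Subtype.val, by
        cases a with
        | none => simp
        | some j => simpa using j.2⟩
  invFun := fun a => match a with
        | ⟨none, _⟩ => none
        | ⟨some j, hj⟩ => some ⟨j, fun h => hj (by rw [h])⟩
  left_inv := by
        intro a
        cases a with
        | none => rfl
        | some j => rfl
  right_inv := by
        rintro ⟨a, ha⟩
        cases a with
        | none => rfl
        | some j => rfl

/-- multiplicities after removing a vertex: composite arrows are added -/
def compm (i : ι) (m : Option ι → Option ι → ℕ) :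
    Option {j : ι // j ≠ i} → Option {j : ι // j ≠ i} → ℕ := fun a b =>
  m (a.map Subtype.val) (b.map Subtype.val) +
    m (a.map Subtype.val) (some i) * m (some i) (b.map Subtype.val)

lemma form_rem (i : ι) (n : ι → ℕ) (m : Option ι → Option ι → ℕ) :
    HasFrobeniusFunctional (SqZero (fun j : {j : ι // j ≠ i} => n j) (compm i m)) ↔
      FrobG (fun j : JJ i => j.1 = none) (fun j : JJ i => Fin (size n j.1) → ℂ)
        (CT (fun j : JJ i => Fin (m (some i) j.1)) (fun j : JJ i => Fin (m j.1 (some i)))
          (fun j k : JJ i => Fin (m j.1 k.1))) := by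
  rw [frobG_iff]
  refine FrobG.transport_iff (rem i) ?_ ?_ ?_
  · intro a
    cases a with
    | none => simp [rem]
    | some j => simp [rem]
  · intro a
    cases a with
    | none => rfl
    | some j => rfl
  · intro a b
    change Fintype.card (Fin (compm i m a b)) = Fintype.card
      (Fin (m (a.map Subtype.val) (b.map Subtype.val)) ⊕
        (Fin (m (a.map Subtype.val) (some i)) × Fin (m (some i) (b.map Subtype.val))))
    rw [Fintype.card_sum, Fintype.card_prod, Fintype.card_fin, Fintype.card_fin, Fintype.card_fin,
      Fintype.card_fin]
    rfl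

end forms

end Pool.Agent.Helper81.AF2
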