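import Pool.Agent.Helper29.AntiFrob.SplitIff
import Pool.Agent.Helper6.AF2.Defs

set_option autoImplicit false

namespace Pool.Agent.Helper81.AF2

open Pool.Agent.Helper29.AntiFrob Pool.Agent.Helper6.AF2

/-- arrows, the new vertex having outgoing and incoming arrows -/
def OT2 {J : Type} (Q Q' : J → Type) (T : J → J → Type) : Option J → Option J → Type
  | none, none => Empty
  | none, some j => Q j
  | some j, none => Q' j
  | some j, some k => T j k

instance OT2.fin {J : Type} {Q Q' : J → Type} {T : J → J → Type} [∀ j, Fintype (Q j)]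
    [∀ j, Fintype (Q' j)] [∀ j k, Fintype (T j k)] : ∀ a b : Option J, Fintype (OT2 Q Q' T a b)
  | none, none => inferInstanceAs (Fintype Empty)
  | none, some j => inferInstanceAs (Fintype (Q j))
  | some j, none => inferInstanceAs (Fintype (Q' j))
  | some j, some k => inferInstanceAs (Fintype (T j k))

instance (priority := high) OT2.e1 {J : Type} {Q Q' : J → Type} {T : J → J → Type} :
    IsEmpty (OT2 Q Q' T none none) := inferInstanceAs (IsEmpty Empty)

section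

variable {J : Type} [Fintype J] (fr : J → Prop) (V : J → Type) [∀ a, AddCommGroup (V a)]
  [∀ a, Module ℂ (V a)] (Q Q' : J → Type) [∀ j, Fintype (Q j)] [∀ j, Fintype (Q' j)]
  (T : J → J → Type) [∀ a b, Fintype (T a b)]
  [DecidableEq J] [∀ j, DecidableEq (Q j)] [∀ j, DecidableEq (Q' j)]
  (W : Type) [AddCommGroup W] [Module ℂ W]

lemma ρ_inj (s : SJ fr V) (j : J) (t : Q j) :
    ρMap fr V Q s ∘ₗ inj V Q j t = inj V Q j t ∘ₗ s.1 j := by
  apply LinearMap.ext
  intro v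
  funext j' t'
  change s.1 j' (prj V Q j' t' (inj V Q j t v)) = prj V Q j' t' (inj V Q j t (s.1 j v))
  rcases eq_or_ne j' j with rfl | hj
  · rcases eq_or_ne t' t with rfl | ht
    · rw [prj_inj, prj_inj]
    · rw [prj_inj_ne_t V Q _ ht, prj_inj_ne_t V Q _ ht, map_zero]
  · rw [prj_inj_ne V Q hj, prj_inj_ne V Q hj, map_zero]

lemma comp_expand {X Z : Type} [AddCommGroup X] [Module ℂ X] [AddCommGroup Z] [Module ℂ Z]
    (m : YY V Q →ₗ[ℂ] Z) (f : X →ₗ[ℂ] YY V Q) :
    m ∘ₗ f = ∑ j, ∑ t, (m ∘ₗ inj V Q j t) ∘ₗ (prj V Q j t ∘ₗ f) := by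
  apply LinearMap.ext
  intro w
  have e1 := sum_inj_prj V Q (f w)
  rw [LinearMap.comp_apply]
  conv_lhs => rw [← e1]
  simp only [map_sum, LinearMap.sum_apply, LinearMap.comp_apply]

theorem frobG2_mp (h : FrobG (ofr fr) (OV W V) (OT2 Q Q' T)) :
    ∃ (Ξ : ∀ j k, T j k → V j →ₗ[ℂ] V k) (Λ : W →ₗ[ℂ] W) (φ : W →ₗ[ℂ] YY V Q)
      (ψ : YY V Q' →ₗ[ℂ] W) (l : NJ fr V),
      KS2 (aMap fr V Ξ) (ρMap fr V Q) (ρMap fr V Q') (bbMap fr V) (cMap fr V Ξ) (τMap fr V Q)
        (τMap fr V Q') Λ φ ψ l := by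
  obtain ⟨Λ', Ξ', hk⟩ := h
  let Λ₀ : W →ₗ[ℂ] W := Λ' none
  let Λj : ∀ j, V j →ₗ[ℂ] V j := fun j => Λ' (some j)
  let Ξj : ∀ j k, T j k → V j →ₗ[ℂ] V k := fun j k t => Ξ' (some j) (some k) t
  let Ξo : ∀ j, Q j → W →ₗ[ℂ] V j := fun j t => Ξ' none (some j) t
  let Ξi : ∀ j, Q' j → V j →ₗ[ℂ] W := fun j t => Ξ' (some j) none t
  let φ : W →ₗ[ℂ] YY V Q := LinearMap.pi fun j => LinearMap.pi fun t => Ξ' none (some j) t
  have hφ : ∀ j t, prj V Q j t ∘ₗ φ = Ξo j t := fun _ _ => rfl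
  let ψ : YY V Q' →ₗ[ℂ] W := ofCoord V Q' Ξi
  have hψ : ∀ j t, ψ ∘ₗ inj V Q' j t = Ξi j t := fun j t => ofCoord_inj V Q' _ j t
  refine ⟨fun j k t => Ξ' (some j) (some k) t, Λ' none, φ, ψ, fun j => Λ' (some j.1), ?_⟩
  intro σ s x m p h1 h2 h2' h3 h4
  let s' : ∀ a : Option J, OV W V a →ₗ[ℂ] OV W V a := fun a => match a with
    | none => σ
    | some j => s.1 j
  let x' : ∀ a b : Option J, OT2 Q Q' T a b → OV W V b →ₗ[ℂ] OV W V a := fun a b =>
    match a, b with
    | none, none => fun t => isEmptyElim t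
    | none, some j => fun t => m ∘ₗ inj V Q j t
    | some j, none => fun t => prj V Q' j t ∘ₗ p
    | some j, some k => fun t => x j k t
  have hres := hk s' x'
    (by
      intro a ha
      cases a with
      | none => exact absurd ha id
      | some j => exact s.2 j ha)
    (by
      intro a b t
      cases a with
      | none =>
        cases b with
        | none => exact isEmptyElim t
        | some j =>
          have := congrArg (fun f => prj V Q j t ∘ₗ f) h2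
          exact this
      | some j =>
        cases b with
        | none =>
          change Ξi j t ∘ₗ s.1 j = σ ∘ₗ Ξi j t
          rw [← hψ, LinearMap.comp_assoc, ← ρ_inj, ← LinearMap.comp_assoc, ← LinearMap.comp_assoc,
            h2']
        | some k =>
          have := congrFun (congrFun (congrFun h1 j) k) t
          exact sub_eq_zero.1 this)
    (by
      intro a ha
      cases a with
      | none =>
        rw [Fintype.sum_option, Fintype.sum_option]
        have e00 : ∑ t, x' none none t ∘ₗ Ξ' none none t = 0 := by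
          rw [Finset.univ_eq_empty, Finset.sum_empty]
        have e01 : ∑ t, Ξ' none none t ∘ₗ x' none none t = 0 := by
          rw [Finset.univ_eq_empty, Finset.sum_empty]
        rw [e00, e01, zero_add, zero_add]
        change Λ₀ ∘ₗ σ - σ ∘ₗ Λ₀ = ∑ j, ∑ t, (m ∘ₗ inj V Q j t) ∘ₗ Ξo j t -
          ∑ j, ∑ t, Ξi j t ∘ₗ (prj V Q' j t ∘ₗ p)
        rw [show Λ₀ ∘ₗ σ - σ ∘ₗ Λ₀ = m ∘ₗ φ - ψ ∘ₗ p from h3, comp_expand V Q m φ,
          comp_expand V Q' ψ p]
        simp only [hψ]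
        rfl
      | some j =>
        rw [Fintype.sum_option, Fintype.sum_option]
        have h4j := congrFun h4 ⟨j, ha⟩
        change (Λj j ∘ₗ s.1 j - s.1 j ∘ₗ Λj j) +
          (∑ k, ∑ t, Ξj k j t ∘ₗ x k j t - ∑ k, ∑ t, x j k t ∘ₗ Ξj j k t) +
          ∑ t, prj V Q j t ∘ₗ (φ ∘ₗ m) ∘ₗ inj V Q j t -
          ∑ t, prj V Q' j t ∘ₗ (p ∘ₗ ψ) ∘ₗ inj V Q' j t = 0 at h4j
        have e3 : ∑ t, (prj V Q' j t ∘ₗ p) ∘ₗ Ξi j t =
            ∑ t, prj V Q' j t ∘ₗ (p ∘ₗ ψ) ∘ₗ inj V Q' j t := by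
          refine Finset.sum_congr rfl fun t _ => ?_
          rw [← hψ]
          rfl
        change Λj j ∘ₗ s.1 j - s.1 j ∘ₗ Λj j =
          (∑ t, (prj V Q' j t ∘ₗ p) ∘ₗ Ξi j t + ∑ k, ∑ t, x j k t ∘ₗ Ξj j k t) -
          (∑ t, prj V Q j t ∘ₗ (φ ∘ₗ m) ∘ₗ inj V Q j t + ∑ k, ∑ t, Ξj k j t ∘ₗ x k j t)
        rw [e3, ← sub_eq_zero, ← h4j]
        abel)
  refine ⟨hres.1 none, ?_, ?_, ?_, ?_⟩
  · apply Subtype.ext
    funext j
    exact hres.1 (some j)
  · funext j k t
    exact hres.2 (some j) (some k) t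
  · apply ext_inj
    intro j t
    have := hres.2 none (some j) t
    rw [LinearMap.zero_comp]
    exact this
  · apply LinearMap.ext
    intro w
    funext j t
    exact LinearMap.congr_fun (hres.2 (some j) none t) w

theorem frobG2_mpr (h : ∃ (Ξ : ∀ j k, T j k → V j →ₗ[ℂ] V k) (Λ : W →ₗ[ℂ] W)
      (φ : W →ₗ[ℂ] YY V Q) (ψ : YY V Q' →ₗ[ℂ] W) (l : NJ fr V),
      KS2 (aMap fr V Ξ) (ρMap fr V Q) (ρMap fr V Q') (bbMap fr V) (cMap fr V Ξ) (τMap fr V Q)
        (τMap fr V Q') Λ φ ψ l) :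
    FrobG (ofr fr) (OV W V) (OT2 Q Q' T) := by
  classical
  obtain ⟨Ξ, Λ, φ, ψ, l, hk⟩ := h
  let Λ' : ∀ a : Option J, OV W V a →ₗ[ℂ] OV W V a := fun a => match a with
    | none => Λ
    | some j => if hj : fr j then 0 else l ⟨j, hj⟩
  let Ξ' : ∀ a b : Option J, OT2 Q Q' T a b → OV W V a →ₗ[ℂ] OV W V b := fun a b =>
    match a, b with
    | none, none => fun t => isEmptyElim t
    | none, some j => fun t => prj V Q j t ∘ₗ φ
    | some j, none => fun t => ψ ∘ₗ inj V Q' j t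
    | some j, some k => fun t => Ξ j k t
  refine ⟨Λ', Ξ', ?_⟩
  intro s' x' h1 h2 h3
  let s : SJ fr V := ⟨fun j => s' (some j), fun j hj => h1 (some j) hj⟩
  let sj : ∀ j, V j →ₗ[ℂ] V j := fun j => s' (some j)
  let xj : ∀ j k, T j k → V k →ₗ[ℂ] V j := fun j k t => x' (some j) (some k) t
  let xq : ∀ j, Q j → V j →ₗ[ℂ] W := fun j t => x' none (some j) t
  let xp : ∀ j, Q' j → W →ₗ[ℂ] V j := fun j t => x' (some j) none t
  let m : YY V Q →ₗ[ℂ] W := ofCoord V Q (fun j t => x' none (some j) t)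
  have hm : ∀ j t, m ∘ₗ inj V Q j t = xq j t := fun j t => ofCoord_inj V Q _ j t
  let p : W →ₗ[ℂ] YY V Q' := LinearMap.pi fun j => LinearMap.pi fun t => x' (some j) none t
  have hp : ∀ j t, prj V Q' j t ∘ₗ p = xp j t := fun _ _ => rfl
  have hres := hk (s' none) s (fun j k t => x' (some j) (some k) t) m p
    (by
      funext j k t
      exact sub_eq_zero.2 (h2 (some j) (some k) t))
    (by
      apply LinearMap.ext
      intro w
      funext j t
      exact LinearMap.congr_fun (h2 none (some j) t) w)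
    (by
      apply ext_inj
      intro j t
      rw [LinearMap.comp_assoc, LinearMap.comp_assoc, ρ_inj, ← LinearMap.comp_assoc]
      exact (h2 (some j) none t).symm)
    (by
      have := h3 none id
      rw [Fintype.sum_option, Fintype.sum_option] at this
      have e00 : ∑ t, x' none none t ∘ₗ Ξ' none none t = 0 := by
        rw [Finset.univ_eq_empty, Finset.sum_empty]
      have e01 : ∑ t, Ξ' none none t ∘ₗ x' none none t = 0 := by
        rw [Finset.univ_eq_empty, Finset.sum_empty]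
      rw [e00, e01, zero_add, zero_add] at this
      rw [comp_expand V Q m φ, comp_expand V Q' ψ p]
      simp only [hm]
      exact this)
    (by
      funext ⟨j, hj⟩
      have := h3 (some j) hj
      rw [Fintype.sum_option, Fintype.sum_option] at this
      have e2 : Λ' (some j) = l ⟨j, hj⟩ := dif_neg hj
      rw [e2] at this
      change (l ⟨j, hj⟩ ∘ₗ sj j - sj j ∘ₗ l ⟨j, hj⟩) +
          (∑ k, ∑ t, Ξ k j t ∘ₗ xj k j t - ∑ k, ∑ t, xj j k t ∘ₗ Ξ j k t) +
          ∑ t, prj V Q j t ∘ₗ (φ ∘ₗ m) ∘ₗ inj V Q j t -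
          ∑ t, prj V Q' j t ∘ₗ (p ∘ₗ ψ) ∘ₗ inj V Q' j t = 0
      have e3 : ∑ t, prj V Q j t ∘ₗ (φ ∘ₗ m) ∘ₗ inj V Q j t =
          ∑ t, (prj V Q j t ∘ₗ φ) ∘ₗ xq j t := by
        refine Finset.sum_congr rfl fun t _ => ?_
        rw [show xq j t = m ∘ₗ inj V Q j t from (hm j t).symm]
        rfl
      rw [e3]
      change l ⟨j, hj⟩ ∘ₗ sj j - sj j ∘ₗ l ⟨j, hj⟩ =
        (∑ t, prj V Q' j t ∘ₗ (p ∘ₗ ψ) ∘ₗ inj V Q' j t + ∑ k, ∑ t, xj j k t ∘ₗ Ξ j k t) -
        (∑ t, (prj V Q j t ∘ₗ φ) ∘ₗ xq j t + ∑ k, ∑ t, Ξ k j t ∘ₗ xj k j t) at this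
      rw [this]
      abel)
  constructor
  · intro a
    cases a with
    | none => exact hres.1
    | some j => exact congrFun (congrArg Subtype.val hres.2.1) j
  · intro a b t
    cases a with
    | none =>
      cases b with
      | none => exact isEmptyElim t
      | some j =>
        have e := hm j t
        rw [hres.2.2.2.1, LinearMap.zero_comp] at e
        exact e.symm
    | some j =>
      cases b with
      | none =>
        have e := hp j t
        rw [hres.2.2.2.2, LinearMap.comp_zero] at e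
        exact e.symm
      | some k => exact congrFun (congrFun (congrFun hres.2.2.1 j) k) t

theorem frobG2_iff : FrobG (ofr fr) (OV W V) (OT2 Q Q' T) ↔
    ∃ (Ξ : ∀ j k, T j k → V j →ₗ[ℂ] V k) (Λ : W →ₗ[ℂ] W) (φ : W →ₗ[ℂ] YY V Q)
      (ψ : YY V Q' →ₗ[ℂ] W) (l : NJ fr V),
      KS2 (aMap fr V Ξ) (ρMap fr V Q) (ρMap fr V Q') (bbMap fr V) (cMap fr V Ξ) (τMap fr V Q)
        (τMap fr V Q') Λ φ ψ l :=
  ⟨frobG2_mp fr V Q Q' T W, frobG2_mpr fr V Q Q' T W⟩

end

end Pool.Agent.Helper81.AF2
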